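import Pool.Agent.L5helper72.BD.Defs

/-!
# Second moment over one period
-/

set_option autoImplicit false

namespace Pool.Agent.L5helper97.BD
open Finset Filter Topology
open Pool.Agent.L5helper72.BD

theorem MOM_holds : St_MOM := by
  classical
  intro P z w J m S hz hJ hS hzS hw hm
  set Q : ℝ := ∏ p ∈ S, (p : ℝ) with hQ
  set W : ℝ := ∏ p ∈ S, (1 - 1 / (p : ℝ)) with hW
  set K : ℝ := (1 + 1 / (z : ℝ)) ^ w with hK
  set N : ℕ := ∏ p ∈ S, p with hN
  have hp0 : ∀ p ∈ S, (0 : ℝ) < p := fun p hp => by exact_mod_cast (hS p hp).1.pos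
  have hQ0 : 0 < Q := prod_pos hp0
  have hW0 : 0 < W := prod_pos fun p hp => by
    have h2 : (2 : ℝ) ≤ p := by exact_mod_cast (hS p hp).1.two_le
    rw [sub_pos, div_lt_one (hp0 p hp)]
    linarith
  have hJ0 : (0 : ℝ) < J := by exact_mod_cast hJ
  have hK0 : 0 ≤ K := by positivity
  have hNQ : (N : ℝ) = Q := by rw [hN, hQ]; push_cast; rfl
  have hG : ∏ p ∈ S, ((p : ℝ) - 1) = W * Q := by
    rw [hW, hQ, ← prod_mul_distrib]
    refine prod_congr rfl fun p hp => ?_
    have := hp0 p hp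
    field_simp
  have hG' : ((∏ p ∈ S, (p - 1) : ℕ) : ℝ) = W * Q := by
    rw [← hG, Nat.cast_prod]
    refine prod_congr rfl fun p hp => ?_
    rw [Nat.cast_sub (hS p hp).1.one_le, Nat.cast_one]
  have hY : ∀ t, (Y P S J t : ℝ) = ∑ j ∈ range J, (if Good P S (t + j) then (1 : ℝ) else 0) := by
    intro t
    unfold Y
    rw [Finset.sum_boole]
  have hone : ∀ j, ∑ t ∈ range N, (if Good P S (t + j) then (1 : ℝ) else 0) = W * Q := by
    intro j
    rw [Finset.sum_boole, ← hG', ← card_one hS j]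
  have h1 : ∑ t ∈ range N, (Y P S J t : ℝ) = J * (W * Q) := by
    rw [sum_congr rfl fun t _ => hY t, sum_comm, sum_congr rfl fun j _ => hone j, sum_const,
      card_range, nsmul_eq_mul]
  have h2 : ∑ t ∈ range N, (Y P S J t : ℝ) ^ 2 ≤
      J * (W * Q) + J ^ 2 * ((W * Q) ^ 2 / Q * K) := by
    have e : ∀ t, (Y P S J t : ℝ) ^ 2 = ∑ i ∈ range J, ∑ j ∈ range J,
        (if Good P S (t + i) ∧ Good P S (t + j) then (1 : ℝ) else 0) := by
      intro t
      rw [hY, sq, sum_mul_sum]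
      refine sum_congr rfl fun i _ => sum_congr rfl fun j _ => ?_
      by_cases h3 : Good P S (t + i) <;> by_cases h4 : Good P S (t + j) <;> simp [h3, h4]
    have e2 : ∑ t ∈ range N, (Y P S J t : ℝ) ^ 2 = ∑ i ∈ range J, ∑ j ∈ range J,
        ∑ t ∈ range N, (if Good P S (t + i) ∧ Good P S (t + j) then (1 : ℝ) else 0) := by
      rw [sum_congr rfl fun t _ => e t, sum_comm]
      exact sum_congr rfl fun i _ => sum_comm
    rw [e2]
    have hc : 0 ≤ (W * Q) ^ 2 / Q * K := by positivity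
    have e3 : ∀ i ∈ range J, ∀ j ∈ range J,
        ∑ t ∈ range N, (if Good P S (t + i) ∧ Good P S (t + j) then (1 : ℝ) else 0) ≤
          (if i = j then W * Q else 0) + (W * Q) ^ 2 / Q * K := by
      intro i hi j hj
      by_cases hij : i = j
      · subst hij
        rw [if_pos rfl]
        simp only [and_self]
        rw [hone]
        linarith
      · rw [if_neg hij, zero_add, Finset.sum_boole, ← hG]
        exact card_two_real hz hS hzS hw (mem_range.1 hi) (mem_range.1 hj) hij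
    refine (sum_le_sum fun i hi => sum_le_sum fun j hj => e3 i hi j hj).trans (le_of_eq ?_)
    have e4 : ∀ i ∈ range J, ∑ j ∈ range J, ((if i = j then W * Q else 0) +
        (W * Q) ^ 2 / Q * K) = W * Q + J * ((W * Q) ^ 2 / Q * K) := by
      intro i hi
      rw [sum_add_distrib, sum_ite_eq, if_pos hi, sum_const, card_range, nsmul_eq_mul]
    rw [sum_congr rfl e4, sum_const, card_range, nsmul_eq_mul]
    ring
  set μ : ℝ := J * W with hμ
  have hμ0 : 0 < μ := mul_pos hJ0 hW0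
  have h3 : ∑ t ∈ range N, ((Y P S J t : ℝ) - μ) ^ 2 ≤ μ * Q + μ ^ 2 * Q * (K - 1) := by
    have e : ∑ t ∈ range N, ((Y P S J t : ℝ) - μ) ^ 2 = ∑ t ∈ range N, (Y P S J t : ℝ) ^ 2 -
        2 * μ * ∑ t ∈ range N, (Y P S J t : ℝ) + N * μ ^ 2 := by
      rw [mul_sum, ← sum_sub_distrib]
      have : (N : ℝ) * μ ^ 2 = ∑ t ∈ range N, μ ^ 2 := by
        rw [sum_const, card_range, nsmul_eq_mul]
      rw [this, ← sum_add_distrib]
      exact sum_congr rfl fun t _ => by ring
    rw [e, h1, hNQ]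
    have e2 : (W * Q) ^ 2 / Q = W ^ 2 * Q := by
      field_simp
    rw [e2] at h2
    have : (J : ℝ) * (W * Q) + J ^ 2 * (W ^ 2 * Q * K) - 2 * μ * (J * (W * Q)) + Q * μ ^ 2 =
        μ * Q + μ ^ 2 * Q * (K - 1) := by
      rw [hμ]; ring
    linarith
  have h4 : (#{t ∈ range N | Y P S J t ≤ m} : ℝ) * (μ ^ 2 / 4) ≤
      ∑ t ∈ range N, ((Y P S J t : ℝ) - μ) ^ 2 := by
    have e : (#{t ∈ range N | Y P S J t ≤ m} : ℝ) * (μ ^ 2 / 4) =
        ∑ t ∈ range N with Y P S J t ≤ m, μ ^ 2 / 4 := by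
      rw [sum_const, nsmul_eq_mul]
    rw [e]
    refine (sum_le_sum fun t ht => ?_).trans (sum_le_sum_of_subset_of_nonneg (filter_subset _ _)
      fun t _ _ => sq_nonneg _)
    have h5 : (Y P S J t : ℝ) ≤ m := by exact_mod_cast (mem_filter.1 ht).2
    have h6 : μ / 2 ≤ μ - Y P S J t := by linarith
    nlinarith
  have h5 : (#{t ∈ range N | Y P S J t ≤ m} : ℝ) * (μ ^ 2 / 4) ≤
      ((4 / μ + 4 * (K - 1)) * Q) * (μ ^ 2 / 4) := by
    refine (h4.trans h3).trans (le_of_eq ?_)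
    field_simp
  exact le_of_mul_le_mul_right h5 (by positivity)

end Pool.Agent.L5helper97.BD
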